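import Pool.Agent.helper91.SI.Spec3
import Pool.Agent.helper63.SI.DSC

/-! Row `si:DS3` (MP_ee5996_co): the proof of `DSC` (helper63) does not use the hypotheses `NoC5`, `NoC6`. -/

set_option autoImplicit false

namespace Pool.Agent.helper91.SI

open Pool.Agent.helper20.IG (IsIndepDom IsISet iGraph)

theorem DS3 : DS3_stmt := by
  intro V _ G S z κ hT h4 hI hz hS
  classical
  obtain ⟨R, hRdef⟩ : ∃ R : Finset V, R = (S 0).filter (fun v => ∀ k, z k ≠ v) := ⟨_, rfl⟩
  have hRmem : ∀ v, v ∈ R ↔ v ∈ S 0 ∧ ∀ k, z k ≠ v := by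
    intro v
    rw [hRdef, Finset.mem_filter]
  have hstay : ∀ r, (∀ k, z k ≠ r) → ∀ t, (r ∈ S t ↔ r ∈ S 0) := by
    intro r hr t
    have hn : ∀ n : ℕ, (r ∈ S (n : ZMod 7) ↔ r ∈ S 0) := by
      intro n
      induction n with
      | zero => simp
      | succ n ih =>
        rw [← ih]
        have e : ((n + 1 : ℕ) : ZMod 7) = (n : ZMod 7) + 1 := by push_cast; rfl
        rw [e, (hS n).2.2, Finset.mem_insert, Finset.mem_erase]
        constructor
        · rintro (h | h)
          · exact absurd h.symm (hr _)
          · exact h.2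
        · intro h
          exact Or.inr ⟨(hr _).symm, h⟩
    have h := hn t.val
    rwa [ZMod.natCast_zmod_val] at h
  have hRt : ∀ t, ∀ r ∈ R, r ∈ S t := by
    intro t r hr
    rw [hRmem] at hr
    exact (hstay r hr.2 t).2 hr.1
  have hRadj : ∀ k, ∀ r ∈ R, ¬ G.Adj r (z k) := by
    intro k r hr
    have hk : z k ∈ S (κ.symm (k - 1) + 1) := by
      rw [(hS (κ.symm (k - 1))).2.2, Equiv.apply_symm_apply, sub_add_cancel]
      exact Finset.mem_insert_self _ _
    exact (hI _).1 r (hRt _ r hr) _ hk
  have hout : ∀ t v, v ∈ S t → v ∈ R ∨ ∃ k, z k = v := by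
    intro t v hv
    by_cases h : ∃ k, z k = v
    · exact Or.inr h
    · left
      push Not at h
      rw [hRmem]
      exact ⟨(hstay v h t).1 hv, h⟩
  obtain ⟨T, hTdef⟩ : ∃ T : ZMod 7 → Finset (ZMod 7),
      T = fun t => Finset.univ.filter (fun k => z k ∈ S t) := ⟨_, rfl⟩
  have hTmem : ∀ t k, k ∈ T t ↔ z k ∈ S t := by
    intro t k
    rw [hTdef]
    simp
  have hex : ∀ t, ∃ j, T t = {j, j + 2, j + 4} := by
    intro t
    apply DSC_key1
    · rintro k ⟨h1, h2⟩
      rw [hTmem] at h1 h2
      exact (hI t).1 _ h1 _ h2 (hz.2 k)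
    · intro k
      simp only [hTmem]
      by_cases h : z k ∈ S t
      · exact Or.inl h
      · right
        obtain ⟨u, hu, hadj⟩ := (hI t).2 (z k) h
        rcases hout t u hu with hr | ⟨j, hj⟩
        · exact absurd hadj (hRadj k u hr)
        · rw [← hj] at hadj hu
          rcases DSC_chord G z hT h4 hz j k hadj with e | e
          · right
            rw [← e]
            exact hu
          · left
            have : k - 1 = j := by rw [e]; ring
            rw [this]
            exact hu
  choose j hj using hex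
  have hstep : ∀ t, j (t + 1) = j t + 5 := by
    intro t
    obtain ⟨s1, s2, s3⟩ := hS t
    apply DSC_key2 (j t) (j (t + 1)) (κ t)
    · rw [← hj t, hTmem]
      exact s1
    · rw [← hj t, hTmem]
      exact s2
    · rw [← hj t, ← hj (t + 1)]
      ext k
      rw [hTmem, s3, Finset.mem_insert, Finset.mem_erase, Finset.mem_insert, Finset.mem_erase,
        hTmem, hz.1.eq_iff, Ne, hz.1.eq_iff]
  have hj5 : ∀ t, j t = j 0 + 5 * t := by
    intro t
    have hn : ∀ n : ℕ, j (n : ZMod 7) = j 0 + 5 * (n : ZMod 7) := by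
      intro n
      induction n with
      | zero => simp
      | succ n ih =>
        have e : ((n + 1 : ℕ) : ZMod 7) = (n : ZMod 7) + 1 := by push_cast; rfl
        rw [e, hstep, ih]
        ring
    have h := hn t.val
    rwa [ZMod.natCast_zmod_val] at h
  refine ⟨R, fun k => z (k + j 0), ⟨?_, ?_⟩, ?_, ?_, ?_⟩
  · intro a b hab
    exact add_right_cancel (hz.1 hab)
  · intro k
    have h := hz.2 (k + j 0)
    have e : k + j 0 + 1 = k + 1 + j 0 := by ring
    rw [e] at h
    exact h
  · intro k hk
    rw [hRmem] at hk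
    exact hk.2 _ rfl
  · intro k r hr
    exact hRadj _ r hr
  · intro t
    have e0 : 5 * t + j 0 = j t := by rw [hj5 t]; ring
    have e2 : 5 * t + 2 + j 0 = j t + 2 := by rw [hj5 t]; ring
    have e4 : 5 * t + 4 + j 0 = j t + 4 := by rw [hj5 t]; ring
    show S t = R ∪ {z (5 * t + j 0), z (5 * t + 2 + j 0), z (5 * t + 4 + j 0)}
    rw [e0, e2, e4]
    have hm : ∀ k, z k ∈ S t ↔ k = j t ∨ k = j t + 2 ∨ k = j t + 4 := by
      intro k
      rw [← hTmem, hj t]
      simp
    ext v
    rw [Finset.mem_union, Finset.mem_insert, Finset.mem_insert, Finset.mem_singleton]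
    constructor
    · intro hv
      rcases hout t v hv with hr | ⟨k, hk⟩
      · exact Or.inl hr
      · right
        rw [← hk, hm] at hv
        rw [← hk]
        rcases hv with q | q | q
        · left
          rw [q]
        · right
          left
          rw [q]
        · right
          right
          rw [q]
    · rintro (h | h | h | h)
      · exact hRt t v h
      · rw [h, hm]
        exact Or.inl rfl
      · rw [h, hm]
        exact Or.inr (Or.inl rfl)
      · rw [h, hm]
        exact Or.inr (Or.inr rfl)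

end Pool.Agent.helper91.SI
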